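import Mathlib

namespace Pool.Agent.H.MP_927db0_al

open Equiv

abbrev A5 := alternatingGroup (Fin 5)

theorem cardA5 : Nat.card A5 = 60 := by
  rw [nat_card_alternatingGroup]; simp [Nat.factorial]

theorem A5_not_solvable : ¬ Group.IsSolvable A5 := by
  intro h
  have h2 := IsSimpleGroup.comm_iff_isSolvable.mpr h
  have h3 := h2 ⟨swap 0 1 * swap 0 2, Perm.mem_alternatingGroup.mpr (by decide)⟩
    ⟨swap 0 1 * swap 0 3, Perm.mem_alternatingGroup.mpr (by decide)⟩
  have h4 := congrArg Subtype.val h3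
  revert h4
  decide

theorem index_big (H : Subgroup A5) (hH : H ≠ ⊤) : 60 ∣ (H.index).factorial := by
  have hc : H.normalCore = ⊥ := by
    rcases (IsSimpleGroup.eq_bot_or_eq_top_of_normal H.normalCore inferInstance) with h | h
    · exact h
    · exact absurd (top_le_iff.mp (h ▸ H.normalCore_le)) hH
  rw [Subgroup.normalCore_eq_ker] at hc
  have hinj := (MonoidHom.ker_eq_bot_iff _).mp hc
  have hd := Subgroup.card_dvd_of_injective _ hinj
  rw [cardA5, Nat.card_perm] at hd
  exact hd

theorem orders_sub (H : Subgroup A5) :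
    Nat.card H ∈ ({1, 2, 3, 4, 5, 6, 10, 12, 60} : Finset ℕ) := by
  have h1 : Nat.card H * H.index = 60 := by rw [Subgroup.card_mul_index, cardA5]
  by_cases hH : H = ⊤
  · have : H.index = 1 := by rw [hH]; simp
    rw [this] at h1; rw [mul_one] at h1; rw [h1]; decide
  have h2 := index_big H hH
  generalize Nat.card H = c at *
  generalize H.index = i at *
  have hi : i ∣ 60 := Dvd.intro_left _ h1
  have hi2 : i ≤ 60 := Nat.le_of_dvd (by norm_num) hi
  interval_cases i <;> first
    | (exfalso; revert h2; decide)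
    | (exfalso; omega)
    | (simp only [Finset.mem_insert, Finset.mem_singleton]; omega)

theorem normal_iff (H : Subgroup A5) : H.Normal ↔ (Nat.card H = 1 ∨ Nat.card H = 60) := by
  constructor
  · intro h
    rcases (IsSimpleGroup.eq_bot_or_eq_top_of_normal H h) with h | h
    · left; rw [h]; simp
    · right; rw [h, Subgroup.card_top, cardA5]
  · rintro (h | h)
    · rw [Subgroup.eq_bot_of_card_eq H h]; infer_instance
    · rw [Subgroup.eq_top_of_card_eq H (by rw [h, cardA5])]; infer_instance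

/-- subgroup preserving a relation -/
def pres (R : Fin 5 → Fin 5 → Bool) : Subgroup A5 where
  carrier := {g | ∀ a b, R (g.1 a) (g.1 b) = R a b}
  one_mem' := by intro a b; rfl
  mul_mem' := by
    intro g h hg hh a b
    have := hg (h.1 a) (h.1 b)
    rw [hh a b] at this
    exact this
  inv_mem' := by
    intro g hg a b
    have := hg (g.1⁻¹ a) (g.1⁻¹ b)
    simp only [Perm.coe_inv, Equiv.apply_symm_apply] at this
    exact this.symm

theorem card_pres (R : Fin 5 → Fin 5 → Bool) :
    Nat.card (pres R) = (Finset.univ.filter (fun g : Perm (Fin 5) =>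
      Perm.sign g = 1 ∧ ∀ a b, R (g a) (g b) = R a b)).card := by
  rw [← Fintype.card_subtype, ← Nat.card_eq_fintype_card]
  refine Nat.card_congr ⟨fun g => ⟨g.1.1, g.1.2, g.2⟩, fun g => ⟨⟨g.1, g.2.1⟩, g.2.2⟩, ?_, ?_⟩
  · intro g; rfl
  · intro g; rfl

theorem ex12 : ∃ H : Subgroup A5, Nat.card H = 12 :=
  ⟨pres (fun a _ => a == 0), by rw [card_pres]; decide +kernel⟩

theorem ex6 : ∃ H : Subgroup A5, Nat.card H = 6 :=
  ⟨pres (fun a _ => a == 0 || a == 1), by rw [card_pres]; decide +kernel⟩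

theorem ex10 : ∃ H : Subgroup A5, Nat.card H = 10 :=
  ⟨pres (fun a b => a == b + 1 || b == a + 1), by rw [card_pres]; decide +kernel⟩

theorem orders_ex (d : ℕ) (hd : d ∈ ({1, 2, 3, 4, 5, 6, 10, 12, 60} : Finset ℕ)) :
    ∃ H : Subgroup A5, Nat.card H = d := by
  haveI : Fact (Nat.Prime 5) := ⟨by norm_num⟩
  simp only [Finset.mem_insert, Finset.mem_singleton] at hd
  rcases hd with h | h | h | h | h | h | h | h | h <;> subst h
  · exact ⟨⊥, by simp⟩
  · simpa using Sylow.exists_subgroup_card_pow_prime (G := A5) 2 (n := 1) (by rw [cardA5]; norm_num)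
  · simpa using Sylow.exists_subgroup_card_pow_prime (G := A5) 3 (n := 1) (by rw [cardA5]; norm_num)
  · simpa using Sylow.exists_subgroup_card_pow_prime (G := A5) 2 (n := 2) (by rw [cardA5]; norm_num)
  · simpa using Sylow.exists_subgroup_card_pow_prime (G := A5) 5 (n := 1) (by rw [cardA5]; norm_num)
  · exact ex6
  · exact ex10
  · exact ex12
  · exact ⟨⊤, by rw [Subgroup.card_top, cardA5]⟩

/-- subgroups of a coprime product split -/
theorem split {P : Type} [Group P] [Finite P] (a : ℕ) (hP : Nat.card P = 7 ^ a)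
    (H : Subgroup (A5 × P)) :
    H = (H.map (MonoidHom.fst _ _)).prod (H.map (MonoidHom.snd _ _)) := by
  have key : ∀ h : A5 × P, h ∈ H → (h.1, (1 : P)) ∈ H := by
    intro h hh
    have h1 : h ^ (7 ^ (4 * a)) ∈ H := H.pow_mem hh _
    have h2 : h.2 ^ (7 ^ (4 * a)) = 1 := by
      have : 7 ^ (4 * a) = 7 ^ a * 7 ^ (3 * a) := by rw [← pow_add]; congr 1; ring
      rw [this, pow_mul, ← hP, pow_card_eq_one', one_pow]
    have h3 : h.1 ^ (7 ^ (4 * a)) = h.1 := by
      have hm : 7 ^ (4 * a) % 60 = 1 := by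
        rw [pow_mul, Nat.pow_mod]; norm_num
      have := Nat.div_add_mod (7 ^ (4 * a)) 60
      rw [← this, hm, pow_add, pow_mul, ← cardA5, pow_card_eq_one', one_pow, one_mul, pow_one]
    have : h ^ (7 ^ (4 * a)) = (h.1, 1) := Prod.ext h3 h2
    rwa [this] at h1
  apply le_antisymm
  · intro h hh
    exact ⟨⟨h, hh, rfl⟩, ⟨h, hh, rfl⟩⟩
  · rintro ⟨s, q⟩ ⟨⟨h, hh, h1⟩, ⟨k, hk, h2⟩⟩
    have e1 := key h hh
    have e2 := H.mul_mem (H.inv_mem (key k hk)) hk
    have e3 := H.mul_mem e1 e2
    have : (h.1, (1 : P)) * ((k.1, (1 : P))⁻¹ * k) = (s, q) := by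
      apply Prod.ext
      · simpa using h1
      · simpa using h2
    rwa [this] at e3

theorem card_prod' {S P : Type} [Group S] [Group P] (H : Subgroup S) (K : Subgroup P) :
    Nat.card (H.prod K) = Nat.card H * Nat.card K := by
  rw [Nat.card_congr (Subgroup.prodEquiv H K).toEquiv, Nat.card_prod]

theorem normal_prod_iff {S P : Type} [Group S] [Group P] (H : Subgroup S) (K : Subgroup P) :
    (H.prod K).Normal ↔ H.Normal ∧ K.Normal := by
  constructor
  · intro h
    constructor
    · have := h.comap (MonoidHom.inl S P)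
      have e : (H.prod K).comap (MonoidHom.inl S P) = H := by
        ext x; simp [Subgroup.mem_prod, K.one_mem]
      rwa [e] at this
    · have := h.comap (MonoidHom.inr S P)
      have e : (H.prod K).comap (MonoidHom.inr S P) = K := by
        ext x; simp [Subgroup.mem_prod, H.one_mem]
      rwa [e] at this
  · rintro ⟨h1, h2⟩; infer_instance

theorem inj7 {d d' i i' : ℕ} (hd : ¬ 7 ∣ d) (hd' : ¬ 7 ∣ d') (h : d * 7 ^ i = d' * 7 ^ i') :
    d = d' ∧ i = i' := by
  have aux : ∀ {d d' i i' : ℕ}, ¬ 7 ∣ d → d * 7 ^ i = d' * 7 ^ i' → ¬ i < i' := by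
    intro d d' i i' hd h hlt
    obtain ⟨t, rfl⟩ := Nat.exists_eq_add_of_lt hlt
    have : d * 7 ^ i = (d' * 7 ^ t * 7) * 7 ^ i := by rw [h]; ring
    have := Nat.eq_of_mul_eq_mul_right (by positivity) this
    exact hd ⟨d' * 7 ^ t, by rw [this]; ring⟩
  have h1 := aux hd h
  have h2 := aux hd' h.symm
  have h3 : i = i' := by omega
  subst h3
  exact ⟨Nat.eq_of_mul_eq_mul_right (by positivity) h, rfl⟩

/-- the count of orders of non-normal subgroups of `A5 × P` -/
theorem count {P : Type} [Group P] [Finite P] (a j : ℕ) (hP : Nat.card P = 7 ^ a)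
    (hN : ∀ i, (∃ K : Subgroup P, Nat.card K = 7 ^ i ∧ ¬ K.Normal) ↔ (1 ≤ i ∧ i ≤ j)) :
    Set.ncard {n : ℕ | ∃ H : Subgroup (A5 × P), Nat.card H = n ∧ ¬ H.Normal}
      = 7 * (a + 1) + 2 * j := by
  haveI : Fact (Nat.Prime 7) := ⟨by norm_num⟩
  let F : Finset (ℕ × ℕ) := (({2, 3, 4, 5, 6, 10, 12} : Finset ℕ) ×ˢ Finset.range (a + 1)) ∪
    (({1, 60} : Finset ℕ) ×ˢ Finset.Icc 1 j)
  have hset : {n : ℕ | ∃ H : Subgroup (A5 × P), Nat.card H = n ∧ ¬ H.Normal}
      = ↑(F.image (fun x => x.1 * 7 ^ x.2)) := by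
    ext n
    simp only [Set.mem_setOf_eq, Finset.coe_image, Set.mem_image, Finset.mem_coe]
    constructor
    · rintro ⟨H, hc, hn⟩
      rw [split a hP H] at hc hn
      generalize H.map (MonoidHom.fst _ _) = H1 at hc hn
      generalize H.map (MonoidHom.snd _ _) = H2 at hc hn
      rw [card_prod'] at hc
      rw [normal_prod_iff] at hn
      have h2 : Nat.card H2 ∣ 7 ^ a := hP ▸ Subgroup.card_subgroup_dvd_card H2
      obtain ⟨i, hi, hi2⟩ := (Nat.dvd_prime_pow (by norm_num : Nat.Prime 7)).mp h2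
      refine ⟨(Nat.card H1, i), ?_, by rw [← hc, hi2]⟩
      have ho := orders_sub H1
      by_cases h1 : H1.Normal
      · have h3 : ¬ H2.Normal := fun h => hn ⟨h1, h⟩
        have h4 := (hN i).mp ⟨H2, hi2, h3⟩
        have h5 := (normal_iff H1).mp h1
        simp only [F, Finset.mem_union, Finset.mem_product, Finset.mem_insert,
          Finset.mem_singleton, Finset.mem_range, Finset.mem_Icc]
        right; exact ⟨h5, h4⟩
      · rw [normal_iff] at h1
        simp only [F, Finset.mem_union, Finset.mem_product, Finset.mem_insert,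
          Finset.mem_singleton, Finset.mem_range, Finset.mem_Icc] at ho ⊢
        left; omega
    · rintro ⟨⟨d, i⟩, hF, rfl⟩
      simp only [F, Finset.mem_union, Finset.mem_product, Finset.mem_insert,
          Finset.mem_singleton, Finset.mem_range, Finset.mem_Icc] at hF
      have hd : d ∈ ({1, 2, 3, 4, 5, 6, 10, 12, 60} : Finset ℕ) := by
        simp only [Finset.mem_insert, Finset.mem_singleton]; omega
      obtain ⟨H1, hH1⟩ := orders_ex d hd
      rcases hF with ⟨h1, h2⟩ | ⟨h1, h2⟩
      · obtain ⟨K, hK⟩ := Sylow.exists_subgroup_card_pow_prime (G := P) 7 (n := i)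
          (by rw [hP]; exact pow_dvd_pow _ (by omega))
        refine ⟨H1.prod K, by rw [card_prod', hH1, hK], ?_⟩
        rw [normal_prod_iff, normal_iff, hH1]
        rintro ⟨h, -⟩; omega
      · obtain ⟨K, hK, hK2⟩ := (hN i).mpr h2
        refine ⟨H1.prod K, by rw [card_prod', hH1, hK], ?_⟩
        rw [normal_prod_iff]
        exact fun h => hK2 h.2
  rw [hset, Set.ncard_coe_finset, Finset.card_image_of_injOn, Finset.card_union_of_disjoint]
  · simp
  · rw [Finset.disjoint_left]
    rintro ⟨d, i⟩ h1 h2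
    simp only [Finset.mem_product, Finset.mem_insert, Finset.mem_singleton] at h1 h2
    omega
  · rintro ⟨d, i⟩ h1 ⟨d', i'⟩ h2 h
    simp only [F, Finset.coe_union, Set.mem_union, Finset.mem_coe, Finset.mem_product,
      Finset.mem_insert, Finset.mem_singleton] at h1 h2
    have := inj7 (d := d) (d' := d') (i := i) (i' := i') (by omega) (by omega) h
    exact Prod.ext this.1 this.2

end Pool.Agent.H.MP_927db0_al
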