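import Mathlib

namespace Pool.Agent.H.MP_927db0_al

/-- the embedding of `ZMod 7` in `ZMod (7^(m+1))` -/
def phi (m : ℕ) : ZMod 7 →+ ZMod (7 ^ (m + 1)) :=
  ZMod.lift 7 ⟨zmultiplesHom _ ((7 : ZMod (7 ^ (m + 1))) ^ m), by
    have h : ((7 ^ (m + 1) : ℕ) : ZMod (7 ^ (m + 1))) = 0 := ZMod.natCast_self _
    simp only [zmultiplesHom_apply, Nat.cast_ofNat, zsmul_eq_mul, Int.cast_ofNat]
    push_cast at h
    rw [← h]; ring⟩

theorem phi_one (m : ℕ) : phi m 1 = (7 : ZMod (7 ^ (m + 1))) ^ m := by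
  have : (1 : ZMod 7) = ((1 : ℤ) : ZMod 7) := by simp
  rw [this, phi, ZMod.lift_coe]; simp

theorem phi_one_ne (m : ℕ) : phi m 1 ≠ 0 := by
  rw [phi_one]
  intro h
  have h2 : ((7 ^ m : ℕ) : ZMod (7 ^ (m + 1))) = 0 := by push_cast; exact h
  rw [ZMod.natCast_eq_zero_iff] at h2
  have := Nat.le_of_dvd (by positivity) h2
  have h3 : 7 ^ m < 7 ^ (m + 1) := Nat.pow_lt_pow_right (by norm_num) (by omega)
  omega

theorem phi_eq (m : ℕ) (t : ZMod 7) : phi m t = t.val • phi m 1 := by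
  rw [← map_nsmul]; simp

theorem reach (m : ℕ) (z : ZMod (7 ^ (m + 1))) (hz : z ≠ 0) : ∃ n : ℕ, n • z = phi m 1 := by
  haveI : NeZero (7 ^ (m + 1)) := ⟨by positivity⟩
  have hv : z.val ≠ 0 := by rwa [Ne, ZMod.val_eq_zero]
  obtain ⟨e, u, hu, he⟩ := Nat.exists_eq_pow_mul_and_not_dvd hv 7 (by norm_num)
  have hlt : z.val < 7 ^ (m + 1) := ZMod.val_lt z
  have hem : e ≤ m := by
    by_contra hc
    have h1 : 7 ^ (m + 1) ≤ 7 ^ e := Nat.pow_le_pow_right (by norm_num) (by omega)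
    have h2 : 0 < u := Nat.pos_of_ne_zero (fun h => hu (by rw [h]; exact dvd_zero _))
    have h3 : 7 ^ e ≤ 7 ^ e * u := Nat.le_mul_of_pos_right _ h2
    omega
  have hcop : Nat.Coprime u (7 ^ (m + 1)) :=
    Nat.Coprime.pow_right _ ((Nat.Prime.coprime_iff_not_dvd (by norm_num)).mpr hu).symm
  obtain ⟨v, hv2⟩ := ((ZMod.isUnit_iff_coprime u (7 ^ (m + 1))).mpr hcop).exists_right_inv
  obtain ⟨t, rfl⟩ := Nat.exists_eq_add_of_le hem
  refine ⟨v.val * 7 ^ t, ?_⟩
  have hz2 : z = (7 : ZMod (7 ^ (e + t + 1))) ^ e * u := by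
    rw [← ZMod.natCast_zmod_val z, he]; push_cast; rfl
  rw [phi_one, nsmul_eq_mul, hz2]
  push_cast
  rw [ZMod.natCast_zmod_val]
  linear_combination (7 : ZMod (7 ^ (e + t + 1))) ^ (e + t) * hv2

@[ext] structure Q (m r : ℕ) where
  z : ZMod (7 ^ (m + 1))
  x : ZMod 7
  y : ZMod 7
  w : Fin r → ZMod 7

variable {m r : ℕ}

instance : Mul (Q m r) := ⟨fun g h => ⟨g.z + h.z + phi m (g.x * h.y), g.x + h.x, g.y + h.y, g.w + h.w⟩⟩
instance : One (Q m r) := ⟨⟨0, 0, 0, 0⟩⟩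
instance : Inv (Q m r) := ⟨fun g => ⟨-g.z + phi m (g.x * g.y), -g.x, -g.y, -g.w⟩⟩

@[simp] theorem mul_z (g h : Q m r) : (g * h).z = g.z + h.z + phi m (g.x * h.y) := rfl
@[simp] theorem mul_x (g h : Q m r) : (g * h).x = g.x + h.x := rfl
@[simp] theorem mul_y (g h : Q m r) : (g * h).y = g.y + h.y := rfl
@[simp] theorem mul_w (g h : Q m r) : (g * h).w = g.w + h.w := rfl
@[simp] theorem one_z : (1 : Q m r).z = 0 := rfl
@[simp] theorem one_x : (1 : Q m r).x = 0 := rfl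
@[simp] theorem one_y : (1 : Q m r).y = 0 := rfl
@[simp] theorem one_w : (1 : Q m r).w = 0 := rfl
@[simp] theorem inv_z (g : Q m r) : (g⁻¹).z = -g.z + phi m (g.x * g.y) := rfl
@[simp] theorem inv_x (g : Q m r) : (g⁻¹).x = -g.x := rfl
@[simp] theorem inv_y (g : Q m r) : (g⁻¹).y = -g.y := rfl
@[simp] theorem inv_w (g : Q m r) : (g⁻¹).w = -g.w := rfl

instance : Group (Q m r) := Group.ofLeftAxioms
  (by
    intro a b c
    ext1
    · simp only [mul_z, mul_x, mul_y, add_mul, mul_add, map_add]; abel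
    · simp [add_assoc]
    · simp [add_assoc]
    · simp [add_assoc])
  (by intro a; ext1 <;> simp)
  (by intro a; ext1 <;> simp)

def eqv : Q m r ≃ ZMod (7 ^ (m + 1)) × ZMod 7 × ZMod 7 × (Fin r → ZMod 7) :=
  ⟨fun g => (g.z, g.x, g.y, g.w), fun t => ⟨t.1, t.2.1, t.2.2.1, t.2.2.2⟩,
    fun _ => rfl, fun _ => rfl⟩

theorem cardQ : Nat.card (Q m r) = 7 ^ (m + 3 + r) := by
  rw [Nat.card_congr eqv]
  rw [Nat.card_prod, Nat.card_prod, Nat.card_prod, Nat.card_fun, Nat.card_zmod, Nat.card_zmod,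
    Nat.card_fin]
  ring

instance : Finite (Q m r) := Nat.finite_of_card_ne_zero (by rw [cardQ]; positivity)

def cen (z : ZMod (7 ^ (m + 1))) : Q m r := ⟨z, 0, 0, 0⟩

theorem cen_pow (z : ZMod (7 ^ (m + 1))) (n : ℕ) : (cen z : Q m r) ^ n = cen (n • z) := by
  induction n with
  | zero => rw [pow_zero]; ext1 <;> simp [cen]
  | succ n ih => rw [pow_succ, ih]; ext1 <;> simp [cen, add_smul]

theorem normal_of_mem (H : Subgroup (Q m r)) (hc : cen (phi m 1) ∈ H) : H.Normal := by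
  refine ⟨fun h hh g => ?_⟩
  have h1 : cen (phi m (g.x * h.y - h.x * g.y)) ∈ H := by
    rw [phi_eq, ← cen_pow]; exact H.pow_mem hc _
  have h2 : g * h * g⁻¹ = h * cen (phi m (g.x * h.y - h.x * g.y)) := by
    ext1
    · simp only [mul_z, mul_x, inv_z, inv_y, cen, mul_neg, add_mul, map_add, map_neg, map_sub,
        mul_zero, map_zero]
      abel
    · simp [cen]
    · simp [cen]
    · simp [cen]
  rw [h2]; exact H.mul_mem hh h1

theorem bound (H : Subgroup (Q m r)) (hc : cen (phi m 1) ∉ H) : Nat.card H < 7 ^ (r + 2) := by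
  classical
  let f : H → ZMod 7 × ZMod 7 × (Fin r → ZMod 7) := fun g => (g.1.x, g.1.y, g.1.w)
  have hinj : Function.Injective f := by
    intro g h hgh
    simp only [f, Prod.mk.injEq] at hgh
    obtain ⟨h1, h2, h3⟩ := hgh
    have hm : g.1⁻¹ * h.1 ∈ H := H.mul_mem (H.inv_mem g.2) h.2
    have he : g.1⁻¹ * h.1 = cen (g.1⁻¹ * h.1).z := by
      ext1 <;> simp [cen, h1, h2, h3]
    by_cases hz : (g.1⁻¹ * h.1).z = 0
    · rw [hz] at he
      have : g.1⁻¹ * h.1 = 1 := he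
      exact Subtype.ext (inv_mul_eq_one.mp this)
    · obtain ⟨n, hn⟩ := reach m _ hz
      rw [he] at hm
      have := H.pow_mem hm n
      rw [cen_pow, hn] at this
      exact absurd this hc
  have hns : ¬ Function.Surjective f := by
    intro hs
    obtain ⟨g, hg⟩ := hs (1, 0, 0)
    obtain ⟨h, hh⟩ := hs (0, 1, 0)
    simp only [f, Prod.mk.injEq] at hg hh
    have hm : g.1 * h.1 * g.1⁻¹ * h.1⁻¹ ∈ H :=
      H.mul_mem (H.mul_mem (H.mul_mem g.2 h.2) (H.inv_mem g.2)) (H.inv_mem h.2)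
    have he : g.1 * h.1 * g.1⁻¹ * h.1⁻¹ = cen (phi m 1) := by
      ext1 <;> simp [cen, hg.1, hg.2.1, hg.2.2, hh.1, hh.2.1, hh.2.2]
      abel
    rw [he] at hm
    exact hc hm
  haveI : Fintype H := Fintype.ofFinite _
  have := Fintype.card_lt_of_injective_not_surjective f hinj hns
  rw [Nat.card_eq_fintype_card]
  simp only [Fintype.card_prod, ZMod.card, Fintype.card_fun, Fintype.card_fin] at this
  calc _ < _ := this
    _ = _ := by ring

def emb : Multiplicative (ZMod 7 × (Fin r → ZMod 7)) →* Q m r where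
  toFun t := ⟨0, t.toAdd.1, 0, t.toAdd.2⟩
  map_one' := rfl
  map_mul' a b := by ext1 <;> simp

theorem emb_inj : Function.Injective (emb : _ →* Q m r) := by
  intro a b h
  have h1 := congrArg Q.x h
  have h2 := congrArg Q.w h
  exact Multiplicative.toAdd.injective (Prod.ext h1 h2)

theorem seven : (7 : ℕ) • (1 : ZMod 7) = 0 := by decide

theorem nonnormal_iff (i : ℕ) :
    (∃ K : Subgroup (Q m r), Nat.card K = 7 ^ i ∧ ¬ K.Normal) ↔ (1 ≤ i ∧ i ≤ r + 1) := by
  haveI : Fact (Nat.Prime 7) := ⟨by norm_num⟩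
  constructor
  · rintro ⟨K, hK, hn⟩
    have h1 := bound K (fun h => hn (normal_of_mem K h))
    rw [hK] at h1
    have h2 := (Nat.pow_lt_pow_iff_right (by norm_num : 1 < 7)).mp h1
    refine ⟨?_, by omega⟩
    by_contra hi
    have : i = 0 := by omega
    rw [this, pow_zero] at hK
    apply hn
    rw [Subgroup.eq_bot_of_card_eq K hK]; infer_instance
  · rintro ⟨h1, h2⟩
    let e : Multiplicative (ZMod 7 × (Fin r → ZMod 7)) := Multiplicative.ofAdd (1, 0)
    have he : orderOf e = 7 := by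
      apply orderOf_eq_prime
      · apply Multiplicative.toAdd.injective
        simp only [e, toAdd_pow, toAdd_ofAdd, toAdd_one, Prod.smul_mk, smul_zero]
        exact Prod.ext seven rfl
      · intro h
        have := congrArg (fun t => (Multiplicative.toAdd t).1) h
        simp [e] at this
    have hc : Nat.card (Multiplicative (ZMod 7 × (Fin r → ZMod 7))) = 7 ^ (r + 1) := by
      simp [pow_succ, mul_comm]
    obtain ⟨L, hL, hle⟩ := Sylow.exists_subgroup_card_pow_prime_le 7 (n := 1) (m := i)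
      (by rw [hc]; exact pow_dvd_pow _ h2) (Subgroup.zpowers e)
      (by rw [Nat.card_zpowers, he, pow_one]) h1
    refine ⟨L.map emb, by rw [Subgroup.card_map_of_injective emb_inj, hL], fun hn => ?_⟩
    have hm : (emb e : Q m r) ∈ L.map emb := ⟨e, hle (Subgroup.mem_zpowers e), rfl⟩
    obtain ⟨t, -, ht⟩ := hn.conj_mem _ hm ⟨0, 0, 1, 0⟩
    have := congrArg Q.z ht
    simp [emb, e] at this
    exact phi_one_ne m this

end Pool.Agent.H.MP_927db0_al
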